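import Pool.Agent.H94.GG.FG
import Pool.Agent.H82.GG.GLG
import Pool.Agent.H94.AB.EO0
import Pool.Agent.H94.AB.EOP

/-!
# MP_1bad5e_ag: almost all hyperelliptic surfaces over every infinite finitely generated field

Let `O` be an infinite integral domain which is finitely generated as a ring, `2 ≠ 0` in `O`, `m = 2 g + 1 ≥ 3` and
`k ≥ 1`.  For `h ≥ 1` we consider all pairs `(D, f)`, `D ∈ O[t]` of degree at most `k`, `f ∈ O[t][x]` monic of degree `m`
in `x` such that the coefficient of `x ^ i` has degree at most `(m - i) h`, and the surfaces `D(t) y ^ 2 = f(t, x)`.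

Theorem: for every `ε > 0` there are an ideal `I` of finite index in `O` and `h₀` such that for all `h ≥ h₀` and all finite
subsets `V` of `O` all of whose classes modulo `I` have at least `(1 - ε / (2 N)) |V| / |O / I|` elements,
`N = h (g + 1) (2 g + 1) + 2 g + k + 2`: of the `|V| ^ N` pairs `(D, f)` with coefficients in `V` at least
`(1 - ε) |V| ^ N` have the following property.

For some surjective ring homomorphism `φ : O → F` onto a finite field of odd characteristic, which is zero on `I`, the
images `D`, `f` over `F` satisfy: `D` is squarefree of degree `k`; the affine curve `f = 0` is smooth; `D`, `f`, `∂f/∂x`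
have no common zero; the leading form of `f` (the part of weight `m h`, for `t` of weight `1` and `x` of weight `h`, at
`t = 1`) is irreducible; and the 2-Selmer group of the Jacobian of the curve `D y ^ 2 = f(x)` over `F(t)` is trivial, even
without the condition at infinity.
-/

set_option autoImplicit false

namespace Pool.Agent.Results.MP_1bad5e_ag.AlmostAllHyperelliptic

open Polynomial IsDedekindDomain

/-- `(P, Q)` represents, over the field `M`, an effective divisor on `D y ^ 2 = g(x)` which is
disjoint from the points with `y = 0`: the points with `P(x) = 0` and `y = Q(x)`. -/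
def IsMumford {M : Type} [Field M] (D : M) (g P Q : M[X]) : Prop :=
  P.Monic ∧ IsCoprime P g ∧ P ∣ C D * Q ^ 2 - g

/-- The descent map on this divisor: the product of the values of `D (x - θ)` over its points, in
`M[x]/(g)`, where `θ` is the class of `x`. -/
noncomputable def descent {M : Type} [Field M] (D : M) (g P : M[X]) : AdjoinRoot g :=
  AdjoinRoot.mk g (C (-D)) ^ P.natDegree * AdjoinRoot.mk g P

/-- `δ` is in the image of the descent map over `M`, up to squares: the product of the values on
finitely many of the divisors above. -/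
def IsValue {M : Type} [Field M] (D : M) (g : M[X]) (δ : AdjoinRoot g) : Prop :=
  ∃ (r : ℕ) (P Q : Fin r → M[X]) (γ : AdjoinRoot g),
    (∀ i, IsMumford D g (P i) (Q i)) ∧ δ * γ ^ 2 = ∏ i, descent D g (P i)

/-- `f` as a polynomial in `x` over `F(t)` -/
noncomputable abbrev overK {F : Type} [Field F] (f : F[X][X]) : (RatFunc F)[X] :=
  f.map (algebraMap F[X] (RatFunc F))

/-- `f` as a polynomial in `x` over the completion of `F(t)` at the prime `v` of `F[t]` -/
noncomputable abbrev overKv {F : Type} [Field F] (f : F[X][X]) (v : HeightOneSpectrum F[X]) :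
    (v.adicCompletion (RatFunc F))[X] :=
  (overK f).map (algebraMap (RatFunc F) (v.adicCompletion (RatFunc F)))

/-- `δ ∈ L^*`, `L = F(t)[x]/(f)`, has norm a square and is in the image of the descent map of
`D y ^ 2 = f(x)` over all completions of `F(t)` at the primes of `F[t]`. -/
structure IsSelmer {F : Type} [Field F] (D : F[X]) (f : F[X][X]) (δ : AdjoinRoot (overK f)) :
    Prop where
  ne_zero : δ ≠ 0
  norm : ∃ y : RatFunc F, Algebra.norm (RatFunc F) δ = y ^ 2
  finite : ∀ v : HeightOneSpectrum F[X],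
    IsValue (algebraMap (RatFunc F) (v.adicCompletion (RatFunc F))
        (algebraMap F[X] (RatFunc F) D)) (overKv f v)
      (AdjoinRoot.map (algebraMap (RatFunc F) (v.adicCompletion (RatFunc F))) (overK f)
        (overKv f v) dvd_rfl δ)

/-- derivative with respect to `t` -/
noncomputable def derivativeT {F : Type} [Field F] (f : F[X][X]) : F[X][X] :=
  f.sum fun i c => monomial i (derivative c)

/-- The leading form: the sum of `c x ^ i` over the terms `c t ^ j x ^ i` of `f` with
`j = (m - i) h`. -/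
noncomputable def leadingForm {F : Type} [Field F] (m h : ℕ) (f : F[X][X]) : F[X] :=
  ∑ i ∈ Finset.range (m + 1), C ((f.coeff i).coeff ((m - i) * h)) * X ^ i

/-- The conditions on a pair over a finite field. -/
structure Minimal {F : Type} [Field F] (m h k : ℕ) (D : F[X]) (f : F[X][X]) : Prop where
  degree : D.natDegree = k
  squarefree : Squarefree D
  smooth : Ideal.span {f, derivative f, derivativeT f} = ⊤
  transversal : Ideal.span {C D, f, derivative f} = ⊤
  infinity : Irreducible (leadingForm m h f)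
  irreducible : Irreducible f
  selmer : ∀ δ, IsSelmer D f δ → ∃ z : AdjoinRoot (overK f), δ = z ^ 2

/-- `D` has degree at most `k` and its coefficients in the degrees `0, …, k` are in `V`;
`f` is monic of degree `m` in `x`, the coefficient of `x ^ i` has degree at most `(m - i) h` and
its coefficients in the degrees `0, …, (m - i) h` are in `V`. -/
structure Box {O : Type} [CommRing O] (V : Finset O) (m h k : ℕ) (D : O[X]) (f : O[X][X]) :
    Prop where
  degree_D : D.natDegree ≤ k
  coeff_D : ∀ j ≤ k, D.coeff j ∈ V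
  monic : f.Monic
  degree_f : f.natDegree = m
  degree_coeff : ∀ i < m, (f.coeff i).natDegree ≤ (m - i) * h
  coeff_f : ∀ i < m, ∀ j ≤ (m - i) * h, (f.coeff i).coeff j ∈ V

/-- Each class modulo `I` has at least `(1 - δ) |V| / |O / I|` elements in `V`. -/
def Equidistributed {O : Type} [CommRing O] (I : Ideal O) (δ : ℝ) (V : Finset O) : Prop :=
  ∀ c : O ⧸ I, (1 - δ) * (V.card : ℝ) ≤
    (Nat.card (O ⧸ I) : ℝ) * (Nat.card {v : O // v ∈ V ∧ Ideal.Quotient.mk I v = c} : ℝ)

/-- Some reduction of the pair satisfies the conditions. -/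
def HasMinimalReduction {O : Type} [CommRing O] (I : Ideal O) (m h k : ℕ) (D : O[X])
    (f : O[X][X]) : Prop :=
  ∃ (F : Type) (_ : Field F) (_ : Finite F) (φ : O →+* F), Function.Surjective φ ∧
    (∀ x ∈ I, φ x = 0) ∧ (2 : F) ≠ 0 ∧ Minimal m h k (D.map φ) (f.map (mapRingHom φ))

/-- the number of the coefficients -/
def number (g h k : ℕ) : ℕ := h * ((g + 1) * (2 * g + 1)) + 2 * g + k + 2

theorem number_eq (g h k : ℕ) :
    h * ((2 * g + 1) * ((2 * g + 1) + 1) / 2) + (2 * g + 1) + k + 1 = number g h k := by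
  have h1 : (2 * g + 1) * ((2 * g + 1) + 1) / 2 = (g + 1) * (2 * g + 1) := by
    have h2 : (2 * g + 1) * ((2 * g + 1) + 1) = 2 * ((g + 1) * (2 * g + 1)) := by ring
    rw [h2, Nat.mul_div_cancel_left _ (by norm_num)]
  rw [number, h1]
  ring

theorem isSelmer_iff {F : Type} [Field F] (D : F[X]) (f : F[X][X]) (δ : AdjoinRoot (overK f)) :
    IsSelmer D f δ ↔ H94.GG.IsSel D f δ :=
  ⟨fun h => ⟨h.1, h.2, h.3⟩, fun h => ⟨h.1, h.2, h.3⟩⟩

theorem minimal_of {F : Type} [Field F] {g h k : ℕ} {D : F[X]} {f : F[X][X]}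
    (H : H94.GG.GoodP g h k D f) : Minimal (2 * g + 1) h k D f :=
  ⟨H.degree, H.squarefree, H.smooth, H.transversal, H.infinity, H.sel.irr,
    fun δ hδ => H.sel.triv δ ((isSelmer_iff D f δ).1 hδ)⟩

theorem box_iff {O : Type} [CommRing O] (V : Finset O) (m h k : ℕ) (D : O[X]) (f : O[X][X]) :
    Box V m h k D f ↔ H82.GG.BoxD (V : Set O) k D ∧ H82.GG.BoxF (V : Set O) m h f :=
  ⟨fun H => ⟨⟨H.1, fun j hj => H.2 j hj⟩, ⟨H.3, H.4, fun i hi => ⟨H.5 i hi, fun j hj => H.6 i hi j hj⟩⟩⟩,
    fun H => ⟨H.1.1, fun j hj => H.1.2 j hj, H.2.monic, H.2.deg, fun i hi => (H.2.coeff i hi).1,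
      fun i hi j hj => (H.2.coeff i hi).2 j hj⟩⟩

/-- reductions of an infinite finitely generated domain -/
theorem reductions (O : Type) [CommRing O] [IsDomain O] [Infinite O] [Algebra.FiniteType ℤ O]
    (h2 : (2 : O) ≠ 0) (B : ℕ) : ∃ (F : Type) (_ : Field F) (_ : Finite F) (φ : O →+* F),
      Function.Surjective φ ∧ B < Nat.card F ∧ (2 : F) ≠ 0 ∧ True := by
  obtain ⟨p, hp⟩ := CharP.exists O
  have key : ∃ (F : Type) (_ : Field F) (_ : Finite F) (φ : O →+* F), Function.Surjective φ ∧
      B < Nat.card F ∧ H94.AB.Lf O F φ := by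
    rcases CharP.char_is_prime_or_zero O p with hp' | hp'
    · have : Fact p.Prime := ⟨hp'⟩
      refine H94.AB.eop p ?_ O B
      rintro rfl
      exact h2 (by exact_mod_cast CharP.cast_eq_zero O 2)
    · subst hp'
      have : CharZero O := CharP.charP_to_charZero O
      exact H94.AB.eo0 O B
  obtain ⟨F, i1, i2, φ, h3, h4, h5⟩ := key
  have h6 : (2 : F) ≠ 0 := by
    obtain ⟨R, _, _, _, r, -⟩ := h5
    exact r.two
  exact ⟨F, i1, i2, φ, h3, h4, h6, trivial⟩

/-- The number of the pairs. -/
theorem card_box {O : Type} [CommRing O] [Nontrivial O] (V : Finset O) (g h k : ℕ) :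
    Nat.card {q : O[X] × O[X][X] // Box V (2 * g + 1) h k q.1 q.2} =
      V.card ^ number g h k := by
  rw [← number_eq, ← H82.GG.box_card]
  exact Nat.card_congr (Equiv.subtypeEquivRight fun q => box_iff V _ h k q.1 q.2)

/-- **Theorem.** -/
theorem result (O : Type) [CommRing O] [IsDomain O] [Infinite O] [Algebra.FiniteType ℤ O]
    (h2 : (2 : O) ≠ 0) (g k : ℕ) (hg : 1 ≤ g) (hk : 1 ≤ k) (ε : ℝ) (hε : 0 < ε) :
    ∃ (I : Ideal O) (h₀ : ℕ), Finite (O ⧸ I) ∧ ∀ h : ℕ, h₀ ≤ h → ∀ V : Finset O,
      Equidistributed I (ε / (2 * number g h k)) V →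
        Nat.card {q : O[X] × O[X][X] // Box V (2 * g + 1) h k q.1 q.2} =
          V.card ^ number g h k ∧
        (1 - ε) * (V.card : ℝ) ^ number g h k ≤
          (Nat.card {q : O[X] × O[X][X] // Box V (2 * g + 1) h k q.1 q.2 ∧
            HasMinimalReduction I (2 * g + 1) h k q.1 q.2} : ℝ) := by
  classical
  obtain ⟨c, hc, Q, hQ⟩ := H94.GG.g2_fin hg hk
  obtain ⟨I, h₀, hI, hH⟩ := H82.GG.glg O (fun _ _ _ => True) (reductions O h2) (2 * g + 1) k
    (fun F _ h D f => H94.GG.GoodP g h k D f) c hc Q hQ ε hε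
  refine ⟨I, h₀, hI, fun h hh V hV => ⟨card_box V g h k, ?_⟩⟩
  have hfin : Finite {q : O[X] × O[X][X] // Box V (2 * g + 1) h k q.1 q.2} := by
    have h3 := H82.GG.box_fin V (2 * g + 1) h k
    have h4 : {q : O[X] × O[X][X] | Box V (2 * g + 1) h k q.1 q.2}.Finite :=
      h3.subset fun q hq => (box_iff V _ h k _ _).1 hq
    exact h4.to_subtype
  by_cases hε1 : ε ≤ 1
  · have hN : (2 : ℝ) ≤ (number g h k : ℝ) := by
      have : 2 ≤ number g h k := by unfold number; omega
      exact_mod_cast this
    have h4 := hH h hh (ε / (2 * number g h k)) (by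
      rw [div_le_one (by positivity)]
      linarith) (by
      rw [number_eq, div_mul_eq_mul_div, div_le_div_iff₀ (by positivity) (by norm_num)]
      linarith) V hV
    rw [number_eq] at h4
    refine h4.trans ?_
    have h5 : Nat.card {p : O[X] × O[X][X] // H82.GG.BoxD (V : Set O) k p.1 ∧
        H82.GG.BoxF (V : Set O) (2 * g + 1) h p.2 ∧
          ∃ (F : Type) (_ : Field F) (_ : Finite F) (φ : O →+* F), Function.Surjective φ ∧
            (∀ x ∈ I, φ x = 0) ∧ (2 : F) ≠ 0 ∧ True ∧
              H94.GG.GoodP g h k (p.1.map φ) (p.2.map (mapRingHom φ))} ≤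
        Nat.card {q : O[X] × O[X][X] // Box V (2 * g + 1) h k q.1 q.2 ∧
            HasMinimalReduction I (2 * g + 1) h k q.1 q.2} := by
      have hfin' : Finite {q : O[X] × O[X][X] // Box V (2 * g + 1) h k q.1 q.2 ∧
            HasMinimalReduction I (2 * g + 1) h k q.1 q.2} :=
        Finite.of_injective (fun q => (⟨q.1, q.2.1⟩ :
          {q : O[X] × O[X][X] // Box V (2 * g + 1) h k q.1 q.2})) (fun q q' hqq =>
            Subtype.ext (congrArg (fun z : {q : O[X] × O[X][X] // Box V (2 * g + 1) h k q.1 q.2} =>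
              z.1) hqq))
      refine Nat.card_le_card_of_injective (fun p => ⟨p.1, (box_iff V _ h k _ _).2 ⟨p.2.1, p.2.2.1⟩, ?_⟩) ?_
      · obtain ⟨-, -, F, i1, i2, φ, h6, h7, h8, -, h9⟩ := p.2
        exact ⟨F, i1, i2, φ, h6, h7, h8, minimal_of h9⟩
      · intro p p' hpp
        have h6 := Subtype.ext_iff.1 hpp
        exact Subtype.ext h6
    exact_mod_cast h5
  · refine le_trans ?_ (Nat.cast_nonneg _)
    exact mul_nonpos_of_nonpos_of_nonneg (by linarith) (by positivity)

end Pool.Agent.Results.MP_1bad5e_ag.AlmostAllHyperelliptic
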