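import Pool.Agent.H45.AW.Fin
import Pool.Agent.H45.AW.HS

/-!
# MP_1bad5e_ag: the Frobenius eigenvalue `q` for the Artin-Schreier surfaces `z ^ p - z = f(t, x)`

`F` is a finite field with `q` elements and of characteristic `p`; `a`, `b` are positive and coprime (the weights of `t` and `x`),
`τ ∈ F[y]` is separable of degree `M ≥ 1`, `a b M` divides `p - 1`, and `f ∈ F[t][x]` is a polynomial of weight at most `a b M` with the
leading form `∑ τ_k t ^ (b k) x ^ (a (M - k))`; the terms of lower weight are arbitrary. (`a = b = 1`: all polynomials of degree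
`M ∣ p - 1` with a separable leading form. In general: the Newton polygon of `f` is the triangle with the vertices `(0, 0)`,
`(b M, 0)`, `(0, a M)`.) Let `N_r` be the number of solutions of `z ^ p - z = f(t, x)` in the field with `q ^ r` elements.

Theorem. Suppose that the Hasse invariants of `τ`, the determinants of the matrices `(coef_(p i - i') τ(y ^ b) ^ (k (p - 1) / (a b M)))`
with the rows and columns numbered by the monomials `t ^ i x ^ j`, `i, j ≥ 1`, of weight `k`, are not zero for all `k < a b M`, or that `τ = α y ^ M + β`,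
`β ≠ 0`, or that `a = b = 1` and `M = 3`. If `N_r = q ^ (2 r) + ∑ α ^ r` for all `r ≥ 1`, with a finite family of complex numbers `α` (by
Grothendieck and Deligne the eigenvalues of Frobenius on the second cohomology with compact support have this property), then at
most `(m - 1) (p - 1)` of the `α` are equal to `q`, where `m` is the number of irreducible factors of `τ`.
-/

set_option autoImplicit false

namespace Pool.Agent.Results.MP_1bad5e_ag.ArtinSchreierSurfaces

open Polynomial

/-- `a`, `b` are positive and coprime, `τ` has degree `M ≥ 1`, all monomials `t ^ j x ^ i` of `f ∈ F[t][x]` satisfy `a j + b i ≤ a b M`, and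
the coefficient of `t ^ (b k) x ^ (a (M - k))` in `f` is the coefficient of `y ^ k` in `τ`. -/
structure HasLeadingForm {F : Type} [Field F] (a b : ℕ) (τ : F[X]) (f : F[X][X]) : Prop where
  a_ne_zero : a ≠ 0
  b_ne_zero : b ≠ 0
  coprime : a.Coprime b
  natDegree_ne_zero : τ.natDegree ≠ 0
  weight_le : ∀ i j, (f.coeff i).coeff j ≠ 0 → a * j + b * i ≤ a * b * τ.natDegree
  leading : ∀ k ≤ τ.natDegree, (f.coeff (a * (τ.natDegree - k))).coeff (b * k) = τ.coeff k

/-- The value `f(c, e)` for `(c, e) = y` with coordinates in an extension `E` of `F`. -/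
noncomputable def value {F : Type} [Field F] {E : Type} [Field E] [Algebra F E] (f : F[X][X])
    (y : E × E) : E :=
  f.eval₂ ((aeval y.1 : F[X] →ₐ[F] E) : F[X] →+* E) y.2

/-- The number of the points of the surface `z ^ p - z = f(t, x)` with coordinates in the field with `q ^ r` elements, that
is, with coordinates `y` in an algebraic closure of `F` which satisfy `y ^ (q ^ r) = y`, `q` the number of elements
of `F`. -/
noncomputable def points {F : Type} [Field F] (p : ℕ) (f : F[X][X]) (r : ℕ) : ℕ :=
  Nat.card {y : (AlgebraicClosure F × AlgebraicClosure F) × AlgebraicClosure F //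
    value f y.1 = y.2 ^ p - y.2 ∧ y.1.1 ^ Nat.card F ^ r = y.1.1 ∧ y.1.2 ^ Nat.card F ^ r = y.1.2 ∧
      y.2 ^ Nat.card F ^ r = y.2}

/-- `F` has `q` elements and `q` is a Frobenius eigenvalue of multiplicity at most `k` for the surface `z ^ p - z = f(t, x)`:
if the number of its points over the field with `q ^ r` elements is `q ^ (2 r) + ∑ α ^ r` for all `r ≥ 1`, with a finite
multiset of complex numbers `α`, then at most `k` of the `α` are equal to `q`. -/
def MultiplicityLE {F : Type} [Field F] (p : ℕ) (f : F[X][X]) (k : ℕ) : Prop :=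
  ∀ A : Multiset ℂ, (∀ r : ℕ, r ≠ 0 →
    (points p f r : ℂ) = (Nat.card F : ℂ) ^ (2 * r) + (A.map fun α => α ^ r).sum) →
    A.count (Nat.card F : ℂ) ≤ k

/-- The number of the monic irreducible factors of `τ`. -/
noncomputable def numberOfFactors {F : Type} [Field F] (τ : F[X]) : ℕ :=
  Nat.card {P : F[X] // P.Monic ∧ Irreducible P ∧ P ∣ τ}

/-- The exponents `(i, j)`, `i, j ≥ 1`, with `a i + b j = k`. -/
def exponents (a b k : ℕ) : Finset (ℕ × ℕ) :=
  (Finset.range (k + 1) ×ˢ Finset.range (k + 1)).filter fun u => 1 ≤ u.1 ∧ 1 ≤ u.2 ∧ a * u.1 + b * u.2 = k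

/-- The Hasse invariant of weight `k`: the determinant of the coefficients of `y ^ (p i - i')` in
`τ(y ^ b) ^ (k (p - 1) / (a b M))`, `M` the degree of `τ`, for the exponents `(i, j)`, `(i', j')` of weight `k`. -/
noncomputable def hasse {F : Type} [Field F] (p a b : ℕ) (τ : F[X]) (k : ℕ) : F :=
  (Matrix.of fun u v : exponents a b k =>
    ((expand F b τ) ^ (k * (p - 1) / (a * b * τ.natDegree))).coeff (p * u.1.1 - v.1.1)).det

theorem value_eq {F : Type} [Field F] {E : Type} [Field E] [Algebra F E] {a b : ℕ} {τ : F[X]} {f : F[X][X]}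
    (h : HasLeadingForm a b τ f) (y : E × E) :
    value f y = H45.AW.vU (H45.AW.wtri (a, b) (a * b * τ.natDegree))
      (fun u => algebraMap F E ((f.coeff u.2).coeff u.1)) y.1 y.2 := by
  obtain ⟨d, hd⟩ : ∃ d, d = a * b * τ.natDegree := ⟨_, rfl⟩
  have ha : 1 ≤ a := Nat.pos_of_ne_zero h.a_ne_zero
  have hb : 1 ≤ b := Nat.pos_of_ne_zero h.b_ne_zero
  have h0 : ∀ i j, (f.coeff i).coeff j ≠ 0 → j + i ≤ d := by
    intro i j hij
    have h1 := h.weight_le i j hij
    rw [← hd] at h1
    have h2 : j ≤ a * j := Nat.le_mul_of_pos_left _ ha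
    have h3 : i ≤ b * i := Nat.le_mul_of_pos_left _ hb
    omega
  have h1 : ∀ i, f.coeff i ≠ 0 → i ≤ d := fun i hi => by
    have h2 : (f.coeff i).coeff (f.coeff i).natDegree ≠ 0 := by
      rw [coeff_natDegree]
      exact leadingCoeff_ne_zero.2 hi
    have := h0 i _ h2
    omega
  have h2 : ∀ i, (f.coeff i).natDegree ≤ d := by
    intro i
    refine natDegree_le_iff_coeff_eq_zero.2 fun N hN => ?_
    by_contra h4
    have := h0 i N h4
    omega
  have h3 : f.natDegree < d + 1 := by
    rw [Nat.lt_succ_iff]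
    refine natDegree_le_iff_coeff_eq_zero.2 fun N hN => ?_
    by_contra h4
    have := h1 N h4
    omega
  rw [← hd, value, eval₂_eq_sum_range' _ h3, H45.AW.vU, H45.AW.wtri, Finset.sum_filter, Finset.sum_product_right]
  refine Finset.sum_congr rfl fun i _ => ?_
  have h5 : (((aeval y.1 : F[X] →ₐ[F] E) : F[X] →+* E)) (f.coeff i) =
      ∑ j ∈ Finset.range (d + 1), algebraMap F E ((f.coeff i).coeff j) * y.1 ^ j := by
    change aeval y.1 (f.coeff i) = _
    rw [aeval_eq_sum_range' (Nat.lt_succ_of_le (h2 i))]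
    exact Finset.sum_congr rfl fun j _ => by rw [Algebra.smul_def]
  rw [h5, Finset.sum_mul]
  refine Finset.sum_congr rfl fun j _ => ?_
  split_ifs with h6
  · rfl
  · have h7 : (f.coeff i).coeff j = 0 := by
      by_contra h8
      apply h6
      rw [hd]
      exact h.weight_le i j h8
    rw [h7]
    simp

/-- **Theorem.** -/
theorem result {F : Type} [Field F] [Finite F] {p : ℕ} [Fact p.Prime] [CharP F p] {a b : ℕ} {τ : F[X]} {f : F[X][X]}
    (h : HasLeadingForm a b τ f) (hτ : τ.Separable) (hp : a * b * τ.natDegree ∣ p - 1)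
    (hH : (∀ k < a * b * τ.natDegree, hasse p a b τ k ≠ 0) ∨
      (∃ α β : F, β ≠ 0 ∧ τ = C α * X ^ τ.natDegree + C β) ∨ (a = 1 ∧ b = 1 ∧ τ.natDegree = 3)) :
    MultiplicityLE p f ((numberOfFactors τ - 1) * (p - 1)) := by
  have ha : 1 ≤ a := Nat.pos_of_ne_zero h.a_ne_zero
  have hb : 1 ≤ b := Nat.pos_of_ne_zero h.b_ne_zero
  have hω : ((1, 1) : ℕ × ℕ) ≤ (a, b) := ⟨ha, hb⟩
  have key : (∀ k < a * b * τ.natDegree, (H45.AW.hm p (a, b) (k * (p - 1) / (a * b * τ.natDegree)) k τ).det ≠ 0) →
      MultiplicityLE p f ((numberOfFactors τ - 1) * (p - 1)) := by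
    intro hH A hA
    refine H45.AW.fin_core hω h.coprime rfl h.natDegree_ne_zero hp τ rfl hτ hH
      (fun u => (f.coeff u.2).coeff u.1) (fun l hl => h.leading l hl) A fun r hr => ?_
    rw [← hA r hr, points]
    simp only [value_eq h]
  rcases hH with hH | ⟨α, β, hβ, hαβ⟩ | ⟨ha1, hb1, h3⟩
  · exact key hH
  · have hα : α ≠ 0 := by
      rintro rfl
      have h4 := h.natDegree_ne_zero
      rw [C_0, zero_mul, zero_add] at hαβ
      rw [hαβ, natDegree_C] at h4
      exact h4 rfl
    refine key fun k hk => ?_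
    have h5 := H45.AW.hs_binom hω rfl hp α β hα hβ k hk
    rw [← hαβ] at h5
    exact h5
  · refine key fun k hk => ?_
    subst ha1
    subst hb1
    have e1 : 1 * 1 * τ.natDegree = 3 := by rw [h3]
    rw [e1] at hk hp ⊢
    exact H45.AW.hs_cub hp τ hτ h3 k hk

end Pool.Agent.Results.MP_1bad5e_ag.ArtinSchreierSurfaces
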