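import Pool.Agent.H94.GG.XD

/-!
# MP_1bad5e_ag: hyperelliptic surfaces over every finite field of odd order

Let `F` be a finite field with `q` elements, `q` odd, `m = 2 g + 1 ≥ 3` and `B ≥ 0`.  For `h ≥ 1` we consider all
polynomials `f ∈ F[t][x]`, monic of degree `m` in `x`, such that the coefficient of `x ^ i` has degree at most
`(m - i) h`; there are `q ^ N` of them, `N = h (g + 1) (2 g + 1) + 2 g + 1`.

Theorem: there is `c > 0` such that for all large `h` at least `c q ^ N` of these polynomials have the following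
properties.

* `f` is irreducible, separable over `F(t)`, and for ALL polynomials `E ≠ 0` in `F[t]` without prime factors of degree
  greater than `B` the 2-Selmer group of the Jacobian of the curve `E y ^ 2 = f(x)` over `F(t)` is trivial, even without
  the condition at infinity.
* `f(x) = D ^ m f₀(x / D)`, where `D ∈ F[t]` is squarefree of positive degree and all prime factors of `D` have
  degree greater than `B`, the affine curve `f₀ = 0` is smooth, its leading form is irreducible, and `f₀` is separable
  modulo all primes which divide `D` or have degree at most `B`.  (So `E y ^ 2 = f(x)` is the twist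
  `E D y ^ 2 = f₀(x)`, the fibre of the surface over a root of `D` is a tree of projective lines, and the surface is
  geometrically simply connected.)
-/

set_option autoImplicit false

namespace Pool.Agent.Results.MP_1bad5e_ag.EveryFiniteField

open Polynomial IsDedekindDomain

/-- `(P, Q)` represents, over the field `M`, an effective divisor on `D y ^ 2 = g(x)` which is
disjoint from the points with `y = 0`: the points with `P(x) = 0` and `y = Q(x)`. -/
def IsMumford {M : Type} [Field M] (D : M) (g P Q : M[X]) : Prop :=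
  P.Monic ∧ IsCoprime P g ∧ P ∣ C D * Q ^ 2 - g

/-- The descent map on this divisor: the product of the values of `D (x - θ)` over its points, in
`M[x]/(g)`, where `θ` is the class of `x`. -/
noncomputable def descent {M : Type} [Field M] (D : M) (g P : M[X]) : AdjoinRoot g :=
  AdjoinRoot.mk g (C (-D)) ^ P.natDegree * AdjoinRoot.mk g P

/-- `δ` is in the image of the descent map over `M`, up to squares: the product of the values on
finitely many of the divisors above. -/
def IsValue {M : Type} [Field M] (D : M) (g : M[X]) (δ : AdjoinRoot g) : Prop :=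
  ∃ (r : ℕ) (P Q : Fin r → M[X]) (γ : AdjoinRoot g),
    (∀ i, IsMumford D g (P i) (Q i)) ∧ δ * γ ^ 2 = ∏ i, descent D g (P i)

/-- `f` as a polynomial in `x` over `F(t)` -/
noncomputable abbrev overK {F : Type} [Field F] (f : F[X][X]) : (RatFunc F)[X] :=
  f.map (algebraMap F[X] (RatFunc F))

/-- `f` as a polynomial in `x` over the completion of `F(t)` at the prime `v` of `F[t]` -/
noncomputable abbrev overKv {F : Type} [Field F] (f : F[X][X]) (v : HeightOneSpectrum F[X]) :
    (v.adicCompletion (RatFunc F))[X] :=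
  (overK f).map (algebraMap (RatFunc F) (v.adicCompletion (RatFunc F)))

/-- `δ ∈ L^*`, `L = F(t)[x]/(f)`, has norm a square and is in the image of the descent map of
`E y ^ 2 = f(x)` over all completions of `F(t)` at the primes of `F[t]`. -/
structure IsSelmer {F : Type} [Field F] (E : F[X]) (f : F[X][X]) (δ : AdjoinRoot (overK f)) :
    Prop where
  ne_zero : δ ≠ 0
  norm : ∃ y : RatFunc F, Algebra.norm (RatFunc F) δ = y ^ 2
  finite : ∀ v : HeightOneSpectrum F[X],
    IsValue (algebraMap (RatFunc F) (v.adicCompletion (RatFunc F))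
        (algebraMap F[X] (RatFunc F) E)) (overKv f v)
      (AdjoinRoot.map (algebraMap (RatFunc F) (v.adicCompletion (RatFunc F))) (overK f)
        (overKv f v) dvd_rfl δ)

/-- derivative with respect to `t` -/
noncomputable def derivativeT {F : Type} [Field F] (f : F[X][X]) : F[X][X] :=
  f.sum fun i c => monomial i (derivative c)

/-- The leading form: the sum of `c x ^ i` over the terms `c t ^ j x ^ i` of `f` with
`j = (m - i) h`. -/
noncomputable def leadingForm {F : Type} [Field F] (m h : ℕ) (f : F[X][X]) : F[X] :=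
  ∑ i ∈ Finset.range (m + 1), C ((f.coeff i).coeff ((m - i) * h)) * X ^ i

/-- `f` is monic of degree `m` in `x`, the coefficient of `x ^ i` has degree at most `(m - i) h` -/
structure Family {F : Type} [Field F] (m h : ℕ) (f : F[X][X]) : Prop where
  monic : f.Monic
  degree : f.natDegree = m
  degree_coeff : ∀ i < m, (f.coeff i).natDegree ≤ (m - i) * h

/-- the conditions on `f₀` and `D` -/
structure Minimal {F : Type} [Field F] (m h B : ℕ) (D : F[X]) (f₀ : F[X][X]) : Prop where
  family : Family m h f₀
  smooth : Ideal.span {f₀, derivative f₀, derivativeT f₀} = ⊤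
  infinity : Irreducible (leadingForm m h f₀)
  positive : 1 ≤ D.natDegree
  squarefree : Squarefree D
  primes : ∀ p : F[X], Irreducible p → p ∣ D → B < p.natDegree
  transversal : ∀ p : F[X], Irreducible p → (p ∣ D ∨ p.natDegree ≤ B) →
    Ideal.span {C p, f₀, derivative f₀} = ⊤

/-- The properties of `f`.  (`f₀.scaleRoots D = D ^ m f₀(x / D)`.) -/
structure Good {F : Type} [Field F] (m h B : ℕ) (f : F[X][X]) : Prop where
  irreducible : Irreducible f
  separable : (overK f).Separable
  selmer : ∀ E : F[X], E ≠ 0 → (∀ p : F[X], Irreducible p → p ∣ E → p.natDegree ≤ B) →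
    ∀ δ, IsSelmer E f δ → ∃ z : AdjoinRoot (overK f), δ = z ^ 2
  twist : ∃ (e : ℕ) (D : F[X]) (f₀ : F[X][X]), e + D.natDegree = h ∧ Minimal m e B D f₀ ∧
    f = f₀.scaleRoots D

/-- the number of the coefficients -/
def number (g h : ℕ) : ℕ := h * ((g + 1) * (2 * g + 1)) + 2 * g + 1

theorem sum_eq (m : ℕ) : ∑ i : Fin m, (m - (i : ℕ)) = m * (m + 1) / 2 := by
  have h1 : ∑ i : Fin m, (m - (i : ℕ)) = ∑ i ∈ Finset.range m, (m - i) :=
    Fin.sum_univ_eq_sum_range (fun i => m - i) m
  have h2 : ∑ i ∈ Finset.range m, (m - i) = ∑ i ∈ Finset.range m, (i + 1) := by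
    rw [← Finset.sum_range_reflect]
    refine Finset.sum_congr rfl fun i hi => ?_
    have := Finset.mem_range.1 hi
    omega
  have h3 : ∑ i ∈ Finset.range m, (i + 1) = ∑ i ∈ Finset.range (m + 1), i := by
    rw [Finset.sum_range_succ' (fun i => i) m]
    simp
  rw [h1, h2, h3, Finset.sum_range_id, Nat.add_sub_cancel, mul_comm]

theorem number_eq (g h : ℕ) : H40.GC.Mh (2 * g + 1) h = number g h := by
  have h0 : H40.GC.Mh (2 * g + 1) h = h * ((2 * g + 1) * ((2 * g + 1) + 1) / 2) + (2 * g + 1) := by
    unfold H40.GC.Mh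
    rw [Finset.sum_add_distrib, ← Finset.sum_mul, sum_eq]
    simp [mul_comm]
  rw [h0]
  have h1 : (2 * g + 1) * ((2 * g + 1) + 1) / 2 = (g + 1) * (2 * g + 1) := by
    have h2 : (2 * g + 1) * ((2 * g + 1) + 1) = 2 * ((g + 1) * (2 * g + 1)) := by ring
    rw [h2, Nat.mul_div_cancel_left _ (by norm_num)]
  rw [number, h1]
  ring

theorem family_iff {F : Type} [Field F] (m h : ℕ) (f : F[X][X]) :
    Family m h f ↔ H94.GG.Fam m h f :=
  ⟨fun H => ⟨H.1, H.2, H.3⟩, fun H => ⟨H.1, H.2, H.3⟩⟩

theorem isSelmer_iff {F : Type} [Field F] (E : F[X]) (f : F[X][X]) (δ : AdjoinRoot (overK f)) :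
    IsSelmer E f δ ↔ H94.GG.IsSel E f δ :=
  ⟨fun h => ⟨h.1, h.2, h.3⟩, fun h => ⟨h.1, h.2, h.3⟩⟩

theorem good_of {F : Type} [Field F] {g h B : ℕ} {f : F[X][X]}
    (H : H94.GG.GoodB g h B f) : Family (2 * g + 1) h f ∧ Good (2 * g + 1) h B f := by
  refine ⟨(family_iff _ _ _).2 H.fam, H.irr, H.sep, fun E hE hp δ hδ =>
    H.triv E ⟨hE, hp⟩ δ ((isSelmer_iff E f δ).1 hδ), ?_⟩
  obtain ⟨e, D, f₀, h1, h2, h3, h4, h5, h6, h7, h8, h9⟩ := H.twist
  exact ⟨e, D, f₀, h4, ⟨(family_iff _ _ _).2 h5, h6, h8, h1, h2, h3, h7⟩, h9⟩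

/-- The number of the polynomials. -/
theorem card_family {F : Type} [Field F] [Finite F] (g h : ℕ) :
    Nat.card {f : F[X][X] // Family (2 * g + 1) h f} = Nat.card F ^ number g h := by
  rw [← number_eq, ← H40.GC.fmc_all]
  exact Nat.card_congr (Equiv.subtypeEquivRight fun f => family_iff _ h f)

/-- **Theorem.** -/
theorem result (F : Type) [Field F] [Finite F] (h2 : (2 : F) ≠ 0) (g : ℕ) (hg : 1 ≤ g) (B : ℕ) :
    ∃ (c : ℝ) (h₀ : ℕ), 0 < c ∧ ∀ h : ℕ, h₀ ≤ h →
      Nat.card {f : F[X][X] // Family (2 * g + 1) h f} = Nat.card F ^ number g h ∧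
      c * (Nat.card F : ℝ) ^ number g h ≤
        (Nat.card {f : F[X][X] // Family (2 * g + 1) h f ∧ Good (2 * g + 1) h B f} : ℝ) := by
  obtain ⟨c, h₀, hc, hh⟩ := H94.GG.g1_all F h2 hg B
  refine ⟨c, h₀, hc, fun h hh0 => ⟨card_family g h, ?_⟩⟩
  have h3 := hh h hh0
  have h4 : Nat.card {f : F[X][X] // H94.GG.Fam (2 * g + 1) h f} = Nat.card F ^ number g h := by
    rw [← card_family g h]
    exact Nat.card_congr (Equiv.subtypeEquivRight fun f => (family_iff _ h f).symm)
  rw [h4] at h3
  push_cast at h3
  refine h3.trans ?_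
  have hfin : Finite {f : F[X][X] // Family (2 * g + 1) h f} := by
    refine Nat.finite_of_card_ne_zero ?_
    rw [card_family]
    exact pow_ne_zero _ Nat.card_pos.ne'
  have hfin' : Finite {f : F[X][X] // Family (2 * g + 1) h f ∧ Good (2 * g + 1) h B f} :=
    Finite.of_injective (fun f => (⟨f.1, f.2.1⟩ : {f : F[X][X] // Family (2 * g + 1) h f}))
      (fun f f' hff => Subtype.ext (congrArg
        (fun z : {f : F[X][X] // Family (2 * g + 1) h f} => z.1) hff))
  have h5 : Nat.card {f : F[X][X] // H94.GG.GoodB g h B f} ≤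
      Nat.card {f : F[X][X] // Family (2 * g + 1) h f ∧ Good (2 * g + 1) h B f} :=
    Nat.card_le_card_of_injective (fun f => ⟨f.1, good_of f.2⟩) (fun f f' hff => by
      have h6 := congrArg Subtype.val hff
      exact Subtype.ext h6)
  exact_mod_cast h5

end Pool.Agent.Results.MP_1bad5e_ag.EveryFiniteField
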